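import Pool.Agent.Lib.MP_107652_al.Tree.TwN
import Pool.Agent.Lib.MP_107652_al.One.CliffEx
import Pool.Agent.Lib.MP_107652_al.One.CliffRel
import Pool.Agent.Lib.MP_107652_al.One.AltInv
import Pool.Agent.Lib.MP_107652_al.One.OddEq

/-!
# MP_107652_al, THEOREM F, part F0: if no odd edge of `Γ` lies on a cycle and `A_Γ ≅ A_Λ`, then `Λ` is
nice (no even edge in an odd component, the odd components are trees, heavy edges are unique)
-/

set_option autoImplicit false

open Finset

namespace WGTree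

open WGirth WGOne WGBar

private theorem TwistCor_normal (X : CExt) : (X.ζ.range).Normal := by
  refine ⟨?_⟩
  rintro _ ⟨c, rfl⟩ g
  refine ⟨c, ?_⟩
  rw [← X.cen c g, mul_assoc, mul_inv_cancel, mul_one]

private theorem TwistCor_one (X : CExt) [(X.ζ.range).Normal] (c : ℂˣ) :
    QuotientGroup.mk' X.ζ.range (X.ζ c) = 1 :=
  (QuotientGroup.eq_one_iff _).2 ⟨c, rfl⟩

private theorem TwistCor_eq (X : CExt) [(X.ζ.range).Normal] (a b : X.E)
    (h : QuotientGroup.mk' X.ζ.range a = QuotientGroup.mk' X.ζ.range b) :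
    ∃ c : ℂˣ, a = b * X.ζ c := by
  have h1 : b⁻¹ * a ∈ X.ζ.range := QuotientGroup.eq.1 h.symm
  obtain ⟨c, hc⟩ := h1
  exact ⟨c, by rw [hc, mul_inv_cancel_left]⟩

/-- elements of a central extension satisfying the relations of `Λ` up to scalars can be corrected -/
theorem twistCorN (V S I : Type) [Fintype V] [Fintype I] [DecidableEq I] (Γ : LGraph V)
    (Λ : LGraph S) (comp : V → I) (hcm : CMap Γ comp) (ho : NoOdd Γ) (φ : Artin Γ ≃* Artin Λ)
    (X : CExt) (u : S → X.E) (c : S → S → ℂˣ)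
    (hu : ∀ s t, Λ.graph.Adj s t → alt (Λ.label s(s, t)) (u s) (u t) =
      X.ζ (c s t) * alt (Λ.label s(s, t)) (u t) (u s)) :
    ∃ (b : I → I → ℂˣ) (lam : S → ℂˣ) (x : S → I → ℤ) (ψ : Artin Λ →* Tw X I b),
      (∀ s, ψ (gen Λ s) = ⟨u s * X.ζ (lam s), x s⟩) ∧ ∀ s t, SameC Λ s t → x s = x t := by
  have := TwistCor_normal X
  obtain ⟨ρ, hρ⟩ := exists_homO Λ (fun s => QuotientGroup.mk' X.ζ.range (u s)) (by
    intro s t hst
    rw [← map_alt, ← map_alt, hu s t hst, map_mul, TwistCor_one, one_mul])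
  have hsurj : ∀ v : V, ∃ a : X.E, QuotientGroup.mk' X.ζ.range a = ρ (φ (gen Γ v)) := fun v =>
    QuotientGroup.mk'_surjective _ _
  choose g hg using hsurj
  have hrel : ∀ v w : V, ∃ c' : ℂˣ, Γ.graph.Adj v w →
      alt (Γ.label s(v, w)) (g v) (g w) = X.ζ c' * alt (Γ.label s(v, w)) (g w) (g v) := by
    intro v w
    by_cases hvw : Γ.graph.Adj v w
    · have h1 := congrArg (fun y => (ρ.comp φ.toMonoidHom) y) (gen_relO Γ hvw)
      have h2 : ∀ x : V, (ρ.comp φ.toMonoidHom) (gen Γ x) =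
          QuotientGroup.mk' X.ζ.range (g x) := fun x => (hg x).symm
      simp only [map_alt, h2] at h1
      rw [← map_alt, ← map_alt] at h1
      obtain ⟨c', hc'⟩ := TwistCor_eq X _ _ h1
      exact ⟨c', fun _ => by rw [hc', X.cen]⟩
    · exact ⟨1, fun h => absurd h hvw⟩
  choose c' hc' using hrel
  obtain ⟨b, lam0, F, hF⟩ := twistHomN V I Γ comp hcm ho X g c' hc'
  let pg : Tw X I b →* X.E ⧸ X.ζ.range :=
    { toFun := fun p => QuotientGroup.mk' X.ζ.range p.g
      map_one' := by rw [Tw.one_g, map_one]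
      map_mul' := by
        intro p q
        rw [Tw.mul_g, map_mul, TwistCor_one, mul_one, map_mul] }
  have hpg : ∀ p : Tw X I b, pg p = QuotientGroup.mk' X.ζ.range p.g := fun _ => rfl
  have hcomp : pg.comp F = ρ.comp φ.toMonoidHom := by
    apply hom_ext
    intro v
    rw [MonoidHom.comp_apply, hF, hpg]
    change QuotientGroup.mk' X.ζ.range (g v * X.ζ (lam0 v)) = _
    rw [map_mul, TwistCor_one, mul_one, hg]
    rfl
  have hψ : ∀ s : S, QuotientGroup.mk' X.ζ.range (F (φ.symm (gen Λ s))).g =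
      QuotientGroup.mk' X.ζ.range (u s) := by
    intro s
    have h1 := DFunLike.congr_fun hcomp (φ.symm (gen Λ s))
    rw [MonoidHom.comp_apply, hpg] at h1
    rw [h1, ← hρ]
    change ρ (φ (φ.symm (gen Λ s))) = _
    rw [MulEquiv.apply_symm_apply]
  have hlam : ∀ s : S, ∃ l : ℂˣ, (F (φ.symm (gen Λ s))).g = u s * X.ζ l := fun s =>
    TwistCor_eq X _ _ (hψ s)
  choose lam hlam using hlam
  refine ⟨b, lam, fun s => (F (φ.symm (gen Λ s))).x, F.comp φ.symm.toMonoidHom, ?_, ?_⟩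
  · intro s
    apply Tw.ext
    · exact hlam s
    · rfl
  · intro s t hst
    have h1 := oddEq.2 (Multiplicative (I → ℤ)) S Λ
      (Tw.px.comp (F.comp φ.symm.toMonoidHom)) s t hst
    exact Multiplicative.ofAdd.injective h1

/-- cancel an element of the group -/
private theorem SignCor_cancel (X : CExt) (A B : X.E) (e c d : ℂˣ)
    (h : A * X.ζ c = B * X.ζ d) (hA : A = X.ζ e * B) : e * c = d := by
  rw [hA, X.cen, mul_assoc, ← map_mul] at h
  exact X.inj (mul_left_cancel h)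

/-- the equation of an odd edge -/
private theorem SignCor_odd (e a c : ℂˣ) (l : ℕ)
    (h : e * (a ^ (l + 1) * c ^ l) = c ^ (l + 1) * a ^ l) : c = e * a := by
  have h1 : (e * a) * (a ^ l * c ^ l) = c * (a ^ l * c ^ l) := by
    calc (e * a) * (a ^ l * c ^ l) = e * (a ^ (l + 1) * c ^ l) := by
          rw [pow_succ' a, mul_assoc, mul_assoc]
      _ = c ^ (l + 1) * a ^ l := h
      _ = c * (a ^ l * c ^ l) := by
          rw [pow_succ' c, mul_assoc, mul_comm (c ^ l)]
  exact (mul_right_cancel h1).symm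

/-- the equation of an even edge -/
private theorem SignCor_even (e a c y z : ℂˣ) (k : ℕ)
    (h : e * (a ^ k * c ^ k * y ^ k) = c ^ k * a ^ k * z ^ k) : e * (y / z) ^ k = 1 := by
  have h1 : (a ^ k * c ^ k) * (e * y ^ k) = (a ^ k * c ^ k) * z ^ k := by
    calc (a ^ k * c ^ k) * (e * y ^ k) = e * (a ^ k * c ^ k * y ^ k) := by
          rw [mul_left_comm]
      _ = c ^ k * a ^ k * z ^ k := h
      _ = (a ^ k * c ^ k) * z ^ k := by rw [mul_comm (c ^ k)]
  rw [div_pow, ← mul_div_assoc, mul_left_cancel h1, div_self']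

/-- the conclusion of the sign argument for one labelled graph -/
def SgH {S : Type} (Λ : LGraph S) : Prop := ∀ ε : Sym2 S → ℂˣ,
  (∀ e ∈ Λ.graph.edgeSet, ε e = 1 ∨ ε e = -1) →
  (∀ e ∈ Λ.graph.edgeSet, Λ.label e = 2 → ε e = -1) →
  ∃ (lam : S → ℂˣ) (q : S → S → ℂˣ),
    (∀ s t, (oddGraph Λ).Adj s t → lam t = ε s(s, t) * lam s) ∧
    (∀ s t, Λ.graph.Adj s t → Even (Λ.label s(s, t)) →
      ε s(s, t) * q s t ^ (Λ.label s(s, t) / 2) = 1) ∧
    (∀ s t, SameC Λ s t → q s t = 1) ∧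
    (∀ s s' t t', SameC Λ s s' → SameC Λ t t' → q s t = q s' t')

theorem signCorN (V S I : Type) [Fintype V] [Fintype S] [DecidableEq S] [Fintype I]
    [DecidableEq I] (Γ : LGraph V) (Λ : LGraph S) (comp : V → I) (hcm : CMap Γ comp)
    (ho : NoOdd Γ) (φ : Artin Γ ≃* Artin Λ) : SgH Λ := by
  intro ε hε hε2
  have hTP := twPow
  have hTA := twAlt
  have hAS := altScal
  obtain ⟨X, u, hu⟩ := cliffEx cliffRel altInv S Λ ε hε hε2
  obtain ⟨b, lam, x, ψ, hψ, hx⟩ := twistCorN V S I Γ Λ comp hcm ho φ X u (fun s t => ε s(s, t)) hu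
  refine ⟨lam, fun s t => bb b (x s) (x t) / bb b (x t) (x s), ?_, ?_, ?_, ?_⟩
  · -- odd edges
    intro s t hst
    have hadj : Λ.graph.Adj s t := hst.1
    have hxx : x s = x t := hx s t hst.reachable
    obtain ⟨l, hl⟩ := Nat.not_even_iff_odd.1 hst.2
    have h1 := congrArg ψ (gen_relO Λ hadj)
    rw [map_alt, map_alt, hψ, hψ] at h1
    have h2 := (hTA X I b ⟨u s * X.ζ (lam s), x s⟩ ⟨u t * X.ζ (lam t), x t⟩ hxx _).1 h1
    have h3 : alt (Λ.label s(s, t)) (u s * X.ζ (lam s)) (u t * X.ζ (lam t)) =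
        alt (Λ.label s(s, t)) (u t * X.ζ (lam t)) (u s * X.ζ (lam s)) := h2
    have h4 := hu s t hadj
    rw [hl] at h3 h4
    rw [(hAS X (u s) (u t) (lam s) (lam t) l).2, (hAS X (u t) (u s) (lam t) (lam s) l).2] at h3
    exact SignCor_odd _ _ _ l (SignCor_cancel X _ _ _ _ _ h3 h4)
  · -- even edges
    intro s t hadj heven
    obtain ⟨k, hk⟩ := heven
    have hk2 : Λ.label s(s, t) = 2 * k := by omega
    have h1 := congrArg ψ (gen_relO Λ hadj)
    rw [map_alt, map_alt, hψ, hψ, hk2, alt_two_mul, alt_two_mul] at h1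
    have h2 : (u s * X.ζ (lam s) * (u t * X.ζ (lam t))) ^ k *
          X.ζ (bb b (x s) (x t) ^ k) =
        (u t * X.ζ (lam t) * (u s * X.ζ (lam s))) ^ k * X.ζ (bb b (x t) (x s) ^ k) :=
      (hTP X I b ⟨u s * X.ζ (lam s), x s⟩ ⟨u t * X.ζ (lam t), x t⟩ k).1 h1
    have h4 := hu s t hadj
    rw [hk2] at h4
    rw [← alt_two_mul, ← alt_two_mul, (hAS X (u s) (u t) (lam s) (lam t) k).1,
      (hAS X (u t) (u s) (lam t) (lam s) k).1, mul_assoc, mul_assoc, ← map_mul, ← map_mul] at h2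
    have h5 := SignCor_cancel X _ _ _ _ _ h2 h4
    have h6 : Λ.label s(s, t) / 2 = k := by omega
    rw [h6]
    exact SignCor_even _ _ _ _ _ k h5
  · intro s t hst
    have hxx : x s = x t := hx s t hst
    change bb b (x s) (x t) / bb b (x t) (x s) = 1
    rw [hxx, div_self']
  · intro s s' t t' hs ht
    change bb b (x s) (x t) / bb b (x t) (x s) = bb b (x s') (x t') / bb b (x t') (x s')
    rw [hx s s' hs, hx t t' ht]

private theorem NiceEx_ne : (-1 : ℂˣ) ≠ 1 := by
  intro h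
  have h1 := congrArg (fun z : ℂˣ => (z : ℂ)) h
  simp only [Units.val_neg, Units.val_one] at h1
  norm_num at h1

private theorem NiceEx_neg (z : ℂˣ) : -z ≠ z := by
  intro h
  have h1 := congrArg (fun w : ℂˣ => (w : ℂ)) h
  simp only [Units.val_neg] at h1
  exact z.ne_zero (self_eq_neg.1 h1.symm)

private theorem NiceEx_ev {S : Type} {Λ : LGraph S} (H : SgH Λ) (s t : S)
    (hst : Λ.graph.Adj s t) (he : Even (Λ.label s(s, t))) : ¬ SameC Λ s t := by
  intro hc
  obtain ⟨lam, q, _, h2, h3, _⟩ := H (fun _ => -1) (fun _ _ => Or.inr rfl) (fun _ _ _ => rfl)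
  have h4 := h2 s t hst he
  rw [h3 s t hc, one_pow, mul_one] at h4
  exact NiceEx_ne h4

private theorem NiceEx_br {S : Type} {Λ : LGraph S} (H : SgH Λ) (s0 t0 : S)
    (h0 : (oddGraph Λ).Adj s0 t0) : ∃ c : S → Bool, c s0 ≠ c t0 ∧
    ∀ s t, (oddGraph Λ).Adj s t → s(s, t) ≠ s(s0, t0) → c s = c t := by
  classical
  obtain ⟨lam, q, h1, _, _, _⟩ := H
    (fun e => if e = s(s0, t0) then -1 else if Even (Λ.label e) then -1 else 1)
    (fun e _ => by
      split_ifs
      · exact Or.inr rfl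
      · exact Or.inr rfl
      · exact Or.inl rfl)
    (fun e _ h2 => by
      split_ifs with h3 h4
      · rfl
      · rfl
      · exact absurd (by rw [h2]; exact even_two) h4)
  refine ⟨fun s => decide (lam s = lam s0), ?_, ?_⟩
  · have h2 := h1 s0 t0 h0
    rw [if_pos rfl, neg_one_mul] at h2
    intro h3
    dsimp only at h3
    rw [decide_eq_decide] at h3
    exact NiceEx_neg (lam s0) (h2.symm.trans (h3.1 rfl))
  · intro s t hst hne
    have h2 := h1 s t hst
    rw [if_neg hne, if_neg hst.2, one_mul] at h2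
    dsimp only
    rw [h2]

/-- The arithmetic at the end. -/
private theorem NiceEx_arith (k k' : ℕ) (hk : 2 ≤ k) (hk' : 1 ≤ k')
    (h : ∀ x y : ℂˣ, (x = 1 ∨ x = -1) → (y = 1 ∨ y = -1) → (k' = 1 → y = -1) →
      ∃ Q : ℂˣ, x * Q ^ k = 1 ∧ y * Q ^ k' = 1) : False := by
  rcases Nat.lt_or_ge k' 2 with h1 | h1
  · have h2 : k' = 1 := by omega
    obtain ⟨Q, h3, h4⟩ := h (-(-1) ^ k) (-1) (by
      rcases neg_one_pow_eq_or ℂˣ k with h5 | h5
      · rw [h5]; exact Or.inr rfl
      · rw [h5, neg_neg]; exact Or.inl rfl) (Or.inr rfl) (fun _ => rfl)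
    rw [h2, pow_one, neg_one_mul] at h4
    have h5 : Q = -1 := by rw [← h4, neg_neg]
    rw [h5, neg_mul, ← mul_pow, neg_one_mul, neg_neg, one_pow] at h3
    exact NiceEx_ne h3
  · have hd : 0 < Nat.gcd k k' := Nat.gcd_pos_of_pos_left _ (by omega)
    obtain ⟨a, ha⟩ := Nat.gcd_dvd_left k k'
    obtain ⟨a', ha'⟩ := Nat.gcd_dvd_right k k'
    have hco : Nat.Coprime a a' := by
      have h2 := Nat.coprime_div_gcd_div_gcd hd
      have h3 : k / Nat.gcd k k' = a := Nat.div_eq_of_eq_mul_right hd ha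
      have h4 : k' / Nat.gcd k k' = a' := Nat.div_eq_of_eq_mul_right hd ha'
      rwa [h3, h4] at h2
    have key : ∀ Q : ℂˣ, (Q ^ k) ^ a' = (Q ^ k') ^ a := by
      intro Q
      rw [← pow_mul, ← pow_mul]
      have h2 : k * a' = k' * a := by
        calc k * a' = Nat.gcd k k' * a * a' := by rw [← ha]
          _ = Nat.gcd k k' * a' * a := by ring
          _ = k' * a := by rw [← ha']
      rw [h2]
    rcases Nat.even_or_odd a with h2 | h2
    · have h3 : Odd a' := by
        rcases Nat.even_or_odd a' with h4 | h4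
        · exfalso
          have h5 := Nat.dvd_gcd h2.two_dvd h4.two_dvd
          rw [hco] at h5
          omega
        · exact h4
      obtain ⟨Q, h4, h5⟩ := h (-1) 1 (Or.inr rfl) (Or.inl rfl) (fun h6 => by omega)
      rw [one_mul] at h5
      rw [neg_one_mul] at h4
      have h6 : Q ^ k = -1 := by rw [← h4, neg_neg]
      have h7 := key Q
      rw [h6, h5, one_pow, h3.neg_one_pow] at h7
      exact NiceEx_ne h7
    · obtain ⟨Q, h4, h5⟩ := h 1 (-1) (Or.inl rfl) (Or.inr rfl) (fun h6 => by omega)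
      rw [one_mul] at h4
      rw [neg_one_mul] at h5
      have h6 : Q ^ k' = -1 := by rw [← h5, neg_neg]
      have h7 := key Q
      rw [h4, h6, one_pow, h2.neg_one_pow] at h7
      exact NiceEx_ne h7.symm

private theorem NiceEx_un {S : Type} {Λ : LGraph S} (H : SgH Λ) (s t s' t' : S)
    (hst : Λ.graph.Adj s t) (hst' : Λ.graph.Adj s' t') (hs : SameC Λ s s') (ht : SameC Λ t t')
    (hn : ¬ SameC Λ s t) (h2 : Λ.label s(s, t) ≠ 2) : s' = s ∧ t' = t := by
  classical
  by_contra hne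
  have hee : s(s', t') ≠ s(s, t) := by
    intro h
    rcases Sym2.eq_iff.1 h with h | h
    · exact hne h
    · rw [h.1] at hs
      exact hn hs
  have hev : Even (Λ.label s(s, t)) := by
    by_contra h
    exact hn (SimpleGraph.Adj.reachable (G := oddGraph Λ) ⟨hst, h⟩)
  have hev' : Even (Λ.label s(s', t')) := by
    by_contra h
    have h3 : SameC Λ s' t' := SimpleGraph.Adj.reachable (G := oddGraph Λ) ⟨hst', h⟩
    exact hn ((SimpleGraph.Reachable.trans hs h3).trans (SimpleGraph.Reachable.symm ht))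
  have hl := Λ.two_le _ ((SimpleGraph.mem_edgeSet Λ.graph).2 hst)
  have hl' := Λ.two_le _ ((SimpleGraph.mem_edgeSet Λ.graph).2 hst')
  obtain ⟨k, hk⟩ := hev
  obtain ⟨k', hk'⟩ := hev'
  refine NiceEx_arith k k' (by omega) (by omega) ?_
  intro x y hx hy hy1
  obtain ⟨lam, q, _, h3, _, h4⟩ := H
    (fun e => if e = s(s, t) then x else if e = s(s', t') then y else -1)
    (fun e _ => by
      split_ifs
      · exact hx
      · exact hy
      · exact Or.inr rfl)
    (fun e _ h5 => by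
      split_ifs with h6 h7
      · exact absurd (h6 ▸ h5) h2
      · refine hy1 ?_
        rw [h7] at h5
        omega
      · rfl)
  refine ⟨q s t, ?_, ?_⟩
  · have h5 := h3 s t hst ⟨k, hk⟩
    rw [if_pos rfl] at h5
    have h6 : Λ.label s(s, t) / 2 = k := by omega
    rwa [h6] at h5
  · have h5 := h3 s' t' hst' ⟨k', hk'⟩
    rw [if_neg hee, if_pos rfl, ← h4 s s' t t' hs ht] at h5
    have h6 : Λ.label s(s', t') / 2 = k' := by omega
    rwa [h6] at h5

/-- **Part F0.** -/
theorem niceExN (V S I : Type) [Fintype V] [Fintype S] [DecidableEq S] [Fintype I]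
    [DecidableEq I] (Γ : LGraph V) (Λ : LGraph S) (comp : V → I) (hcm : CMap Γ comp)
    (ho : NoOdd Γ) (φ : Artin Γ ≃* Artin Λ) : Nice Λ := by
  have H : SgH Λ := signCorN V S I Γ Λ comp hcm ho φ
  exact ⟨NiceEx_ev H, NiceEx_br H, NiceEx_un H⟩

end WGTree
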