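import Pool.Agent.Lib.MP_107652_al.Bar.W0
import Pool.Agent.Lib.MP_107652_al.Bar.W1
import Pool.Agent.Lib.MP_107652_al.One.TwPow
import Pool.Agent.Lib.MP_107652_al.One.TwAlt
import Pool.Agent.Lib.MP_107652_al.One.AltScal

/-!
# MP_107652_al, THEOREM F, part F0: twisted products for graphs in which no odd edge lies on a cycle
-/

set_option autoImplicit false

open Finset

namespace WGTree

open WGirth WGOne WGBar

/-- an odd edge is a bridge: colouring of the two sides -/
theorem bridge_col {V : Type} {Γ : LGraph V} (ho : NoOdd Γ) (a b : V) (hab : Γ.graph.Adj a b)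
    (hodd : ¬ Even (Γ.label s(a, b))) : ∃ col : V → Bool, col a = true ∧ col b = false ∧
    ∀ s t, Γ.graph.Adj s t → s(s, t) ≠ s(a, b) → col s = col t := by
  classical
  have hbr : Γ.graph.IsBridge s(a, b) := by
    rw [SimpleGraph.isBridge_iff_forall_cycle_notMem ((SimpleGraph.mem_edgeSet _).2 hab)]
    intro u p hp hmem
    exact hodd (ho u p hp _ hmem)
  rw [SimpleGraph.isBridge_iff] at hbr
  refine ⟨fun v => decide ((Γ.graph.deleteEdges {s(a, b)}).Reachable a v), ?_, ?_, ?_⟩
  · exact decide_eq_true (SimpleGraph.Reachable.refl _)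
  · exact decide_eq_false hbr
  · intro s t hst hne
    have h1 : (Γ.graph.deleteEdges {s(a, b)}).Adj s t := by
      rw [SimpleGraph.deleteEdges_adj]
      exact ⟨hst, fun h => hne h⟩
    rw [decide_eq_decide]
    exact ⟨fun h => h.trans h1.reachable, fun h => h.trans h1.symm.reachable⟩

/-- scalars along the odd edges are coboundaries -/
theorem tree_scal {V : Type} [Fintype V] {Γ : LGraph V} (ho : NoOdd Γ) (c : V → V → ℂˣ)
    (hc : ∀ v w, Γ.graph.Adj v w → c v w * c w v = 1) : ∃ lam : V → ℂˣ,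
    ∀ v w, Γ.graph.Adj v w → ¬ Even (Γ.label s(v, w)) → lam w = c v w * lam v := by
  classical
  have key : ∀ Fs : Finset (Sym2 V), (∀ e ∈ Fs, e ∈ Γ.graph.edgeSet ∧ ¬ Even (Γ.label e)) →
      ∃ lam : V → ℂˣ, ∀ v w, s(v, w) ∈ Fs → lam w = c v w * lam v := by
    intro Fs
    induction Fs using Finset.induction_on with
    | empty => exact fun _ => ⟨fun _ => 1, fun v w h => absurd h (Finset.notMem_empty _)⟩
    | insert e Fs he ih =>
      intro hFs
      obtain ⟨lam, hlam⟩ := ih (fun e' he' => hFs e' (Finset.mem_insert_of_mem he'))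
      obtain ⟨h1, h2⟩ := hFs e (Finset.mem_insert_self _ _)
      induction e using Sym2.ind with
      | _ a b =>
        rw [SimpleGraph.mem_edgeSet] at h1
        obtain ⟨col, ha, hb, hcol⟩ := bridge_col ho a b h1 h2
        refine ⟨fun v => lam v * (if col v = true then 1 else c a b * lam a * (lam b)⁻¹), ?_⟩
        intro v w hvw
        rcases Finset.mem_insert.1 hvw with hvw | hvw
        · rcases Sym2.eq_iff.1 hvw with ⟨rfl, rfl⟩ | ⟨rfl, rfl⟩
          · simp only [ha, hb, if_true, Bool.false_eq_true, if_false, mul_one]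
            rw [mul_comm, mul_assoc, inv_mul_cancel, mul_one]
          · simp only [ha, hb, if_true, Bool.false_eq_true, if_false, mul_one]
            have h3 := hc w v h1
            rw [mul_comm (lam v), inv_mul_cancel_right, ← mul_assoc, mul_comm (c v w), h3, one_mul]
        · have h3 := hFs _ (Finset.mem_insert_of_mem hvw)
          have h4 := hcol v w ((SimpleGraph.mem_edgeSet _).1 h3.1) (fun h => he (h ▸ hvw))
          simp only [h4]
          rw [hlam v w hvw, mul_assoc]
  obtain ⟨lam, hlam⟩ := key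
    (Finset.univ.filter fun e : Sym2 V => e ∈ Γ.graph.edgeSet ∧ ¬ Even (Γ.label e))
    (fun e he => (Finset.mem_filter.1 he).2)
  exact ⟨lam, fun v w hvw hod => hlam v w (Finset.mem_filter.2
    ⟨Finset.mem_univ _, (SimpleGraph.mem_edgeSet _).2 hvw, hod⟩)⟩

private theorem root_ex (k : ℕ) (hk : 1 ≤ k) (c : ℂˣ) : ∃ b : ℂˣ, b ^ k = c⁻¹ := by
  obtain ⟨z, hz⟩ := IsAlgClosed.exists_pow_nat_eq (((c⁻¹ : ℂˣ)) : ℂ) (n := k) (by omega)
  have hz0 : z ≠ 0 := by
    rintro rfl
    rw [zero_pow (by omega)] at hz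
    exact (c⁻¹).ne_zero hz.symm
  refine ⟨Units.mk0 z hz0, ?_⟩
  ext1
  rw [Units.val_pow_eq_pow_val, Units.val_mk0, hz]

/-- elements of a central extension which satisfy the relations up to scalars -/
theorem twistHomN (V I : Type) [Fintype V] [Fintype I] [DecidableEq I] (Γ : LGraph V)
    (comp : V → I) (hcm : CMap Γ comp) (ho : NoOdd Γ) (X : CExt) (g : V → X.E) (c : V → V → ℂˣ)
    (hc : ∀ v w, Γ.graph.Adj v w → alt (Γ.label s(v, w)) (g v) (g w) =
      X.ζ (c v w) * alt (Γ.label s(v, w)) (g w) (g v)) :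
    ∃ (b : I → I → ℂˣ) (lam : V → ℂˣ) (F : Artin Γ →* Tw X I b),
      ∀ v, F (gen Γ v) = ⟨g v * X.ζ (lam v), Pi.single (comp v) 1⟩ := by
  classical
  -- the scalars are inverse to each other
  have hinv : ∀ v w, Γ.graph.Adj v w → c v w * c w v = 1 := by
    intro v w h
    have h1 := hc v w h
    have h2 := hc w v h.symm
    rw [Sym2.eq_swap] at h2
    rw [h2, ← mul_assoc, ← map_mul] at h1
    have h3 : X.ζ (c v w * c w v) = 1 := by
      have h4 : 1 * alt (Γ.label s(v, w)) (g v) (g w) =
          X.ζ (c v w * c w v) * alt (Γ.label s(v, w)) (g v) (g w) := by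
        rw [one_mul]; exact h1
      exact (mul_right_cancel h4).symm
    exact X.inj (by rw [h3, map_one])
  obtain ⟨lam, hlam⟩ := tree_scal ho c hinv
  -- the form
  have hroot : ∀ i j : I, ∃ r : ℂˣ, ∀ v w, Γ.graph.Adj v w → comp v = i → comp w = j → i ≠ j →
      r ^ (Γ.label s(v, w) / 2) = (c v w)⁻¹ := by
    intro i j
    by_cases h : i ≠ j ∧ ∃ v w, Γ.graph.Adj v w ∧ comp v = i ∧ comp w = j
    · obtain ⟨hij, v0, w0, h0, hv0, hw0⟩ := h
      have h2 := Γ.two_le _ ((SimpleGraph.mem_edgeSet _).2 h0)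
      obtain ⟨r, hr⟩ := root_ex (Γ.label s(v0, w0) / 2) (by omega) (c v0 w0)
      refine ⟨r, fun v w hvw hv hw hij' => ?_⟩
      have h3 := (pW1 pW0).2 V I Γ comp hcm ho v0 w0 v w h0 hvw (hv0.trans hv.symm)
        (hw0.trans hw.symm) (by rw [hv0, hw0]; exact hij)
      rw [← h3.1, ← h3.2]
      exact hr
    · refine ⟨1, fun v w hvw hv hw hij' => absurd ⟨hij', v, w, hvw, hv, hw⟩ h⟩
  choose r hr using hroot
  let o : I → ℕ := fun i => (Fintype.equivFin I i : ℕ)
  have hoi : Function.Injective o := fun v w h => (Fintype.equivFin I).injective (Fin.ext h)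
  let b : I → I → ℂˣ := fun v w => if o v < o w then r v w else 1
  -- the relation of an even edge in one direction
  have hrel : ∀ v w, Γ.graph.Adj v w → Even (Γ.label s(v, w)) → o (comp v) < o (comp w) →
      alt (Γ.label s(v, w)) (⟨g v * X.ζ (lam v), Pi.single (comp v) 1⟩ : Tw X I b)
        ⟨g w * X.ζ (lam w), Pi.single (comp w) 1⟩ =
      alt (Γ.label s(v, w)) (⟨g w * X.ζ (lam w), Pi.single (comp w) 1⟩ : Tw X I b)
        ⟨g v * X.ζ (lam v), Pi.single (comp v) 1⟩ := by
    intro v w h hev hlt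
    obtain ⟨k, hk⟩ := hev
    have hk2 : Γ.label s(v, w) = 2 * k := by omega
    have hne : comp v ≠ comp w := fun h' => by rw [h'] at hlt; exact absurd hlt (lt_irrefl _)
    have h1 := hr (comp v) (comp w) v w h rfl rfl hne
    have h6 : Γ.label s(v, w) / 2 = k := by omega
    rw [h6] at h1
    have h4 := hc v w h
    rw [hk2] at h4
    rw [hk2, alt_two_mul, alt_two_mul, twPow X I b]
    change (g v * X.ζ (lam v) * (g w * X.ζ (lam w))) ^ k *
        X.ζ (bb b (Pi.single (comp v) 1) (Pi.single (comp w) 1) ^ k) =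
      (g w * X.ζ (lam w) * (g v * X.ζ (lam v))) ^ k *
        X.ζ (bb b (Pi.single (comp w) 1) (Pi.single (comp v) 1) ^ k)
    rw [bb_single, bb_single]
    have e1 : b (comp v) (comp w) = r (comp v) (comp w) := if_pos hlt
    have e2 : b (comp w) (comp v) = 1 := if_neg (by omega)
    rw [e1, e2, h1, one_pow, map_one, mul_one, ← alt_two_mul, ← alt_two_mul,
      (altScal X (g v) (g w) (lam v) (lam w) k).1, (altScal X (g w) (g v) (lam w) (lam v) k).1, h4,
      X.cen, mul_assoc, mul_assoc, ← map_mul, ← map_mul]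
    congr 2
    ext1
    push_cast
    have h7 : (c v w : ℂ) ≠ 0 := (c v w).ne_zero
    field_simp
  obtain ⟨F, hF⟩ := exists_homO Γ
    (fun v => (⟨g v * X.ζ (lam v), Pi.single (comp v) 1⟩ : Tw X I b)) (by
    intro v w h
    by_cases hev : Even (Γ.label s(v, w))
    · rcases lt_trichotomy (o (comp v)) (o (comp w)) with hlt | heq | hgt
      · exact hrel v w h hev hlt
      · exact absurd (hoi heq) ((pW1 pW0).1 V I Γ comp hcm ho v w h hev)
      · have h1 := hrel w v h.symm (by rw [Sym2.eq_swap]; exact hev) hgt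
        rw [Sym2.eq_swap] at h1
        exact h1.symm
    · have hcw : comp v = comp w := comp_eq_of_odd hcm h hev
      obtain ⟨l, hl⟩ := Nat.not_even_iff_odd.1 hev
      have hx : (⟨g v * X.ζ (lam v), Pi.single (comp v) 1⟩ : Tw X I b).x =
          (⟨g w * X.ζ (lam w), Pi.single (comp w) 1⟩ : Tw X I b).x := by
        change (Pi.single (comp v) 1 : I → ℤ) = Pi.single (comp w) 1
        rw [hcw]
      rw [twAlt X I b _ _ hx]
      change alt (Γ.label s(v, w)) (g v * X.ζ (lam v)) (g w * X.ζ (lam w)) =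
        alt (Γ.label s(v, w)) (g w * X.ζ (lam w)) (g v * X.ζ (lam v))
      have h4 := hc v w h
      rw [hl] at h4 ⊢
      rw [(altScal X (g v) (g w) (lam v) (lam w) l).2, (altScal X (g w) (g v) (lam w) (lam v) l).2,
        h4, hlam v w h hev, X.cen, mul_assoc, ← map_mul]
      congr 2
      ext1
      push_cast
      ring)
  exact ⟨b, lam, F, hF⟩

end WGTree
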